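import Pool.Agent.Helper18.C4.Final

namespace Pool.Agent.Helper18.C4

/-- Agreement up to level `n`. -/
def Agr {p : ℕ} (n : ℕ) (x y : XX p) : Prop :=
  (∀ L ≤ n, x.1 L = y.1 L) ∧ ∀ w, w.length ≤ n → x.2 w = y.2 w

theorem Agr.mono {p : ℕ} {m n : ℕ} (hmn : m ≤ n) {x y : XX p} (h : Agr n x y) : Agr m x y :=
  ⟨fun L hL => h.1 L (hL.trans hmn), fun w hw => h.2 w (hw.trans hmn)⟩

theorem Agr.trans {p : ℕ} {n : ℕ} {x y z : XX p} (h : Agr n x y) (h' : Agr n y z) : Agr n x z :=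
  ⟨fun L hL => (h.1 L hL).trans (h'.1 L hL), fun w hw => (h.2 w hw).trans (h'.2 w hw)⟩

theorem Agr.symm {p : ℕ} {n : ℕ} {x y : XX p} (h : Agr n x y) : Agr n y x :=
  ⟨fun L hL => (h.1 L hL).symm, fun w hw => (h.2 w hw).symm⟩

theorem isOpen_agr {p : ℕ} (n : ℕ) (x : XX p) : IsOpen {y | Agr n x y} := by
  have h1 : IsOpen {y : XX p | ∀ L ≤ n, x.1 L = y.1 L} := by
    have : {y : XX p | ∀ L ≤ n, x.1 L = y.1 L} =
        ⋂ L ∈ Finset.range (n + 1), {y : XX p | x.1 L = y.1 L} := by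
      ext y
      simp [Nat.lt_succ_iff]
    rw [this]
    refine isOpen_biInter_finset fun L _ => ?_
    have hc : Continuous (fun y : XX p => y.1 L) := by fun_prop
    exact hc.isOpen_preimage {g | x.1 L = g} (isOpen_discrete _)
  have h2 : IsOpen {y : XX p | ∀ w : List (Fin 3), w.length ≤ n → x.2 w = y.2 w} := by
    have hfin := List.finite_length_le (Fin 3) n
    have : {y : XX p | ∀ w : List (Fin 3), w.length ≤ n → x.2 w = y.2 w} =
        ⋂ w ∈ {w : List (Fin 3) | w.length ≤ n}, {y : XX p | x.2 w = y.2 w} := by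
      ext y
      simp
    rw [this]
    refine hfin.isOpen_biInter fun w _ => ?_
    have hc : Continuous (fun y : XX p => y.2 w) := by fun_prop
    exact hc.isOpen_preimage {g | x.2 w = g} (isOpen_discrete _)
  exact h1.inter h2

theorem exists_agr {p : ℕ} {O : Set (XX p)} (hO : IsOpen O) {x : XX p} (hx : x ∈ O) :
    ∃ n, ∀ y, Agr n x y → y ∈ O := by
  classical
  rw [isOpen_prod_iff] at hO
  obtain ⟨u, v, hu, hv, hxu, hxv, huv⟩ := hO x.1 x.2 hx
  rw [isOpen_pi_iff] at hu hv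
  obtain ⟨I, U, hI1, hI2⟩ := hu _ hxu
  obtain ⟨J, W, hJ1, hJ2⟩ := hv _ hxv
  refine ⟨max (I.sup id) (J.sup List.length), fun y hy => huv ⟨hI2 ?_, hJ2 ?_⟩⟩
  · intro L hL
    have : L ≤ I.sup id := Finset.le_sup (f := id) hL
    rw [← hy.1 L (this.trans (le_max_left _ _))]
    exact (hI1 L hL).2
  · intro w hw
    have : w.length ≤ J.sup List.length := Finset.le_sup (f := List.length) hw
    rw [← hy.2 w (this.trans (le_max_right _ _))]
    exact (hJ1 w hw).2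

theorem exists_level {p : ℕ} [NeZero p] {H : Type} (f : XX p → H)
    (hf : ∀ h, IsOpen (f ⁻¹' {h})) : ∃ n, ∀ x y, Agr n x y → f x = f y := by
  classical
  have hx : ∀ x, ∃ n, ∀ y, Agr n x y → f y = f x := fun x =>
    exists_agr (hf (f x)) (by simp)
  choose n hn using hx
  obtain ⟨t, ht⟩ := CompactSpace.elim_nhds_subcover (fun x => {y | Agr (n x) x y})
    (fun x => (isOpen_agr (n x) x).mem_nhds ⟨fun _ _ => rfl, fun _ _ => rfl⟩)
  refine ⟨t.sup n, fun x y hxy => ?_⟩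
  have hx : x ∈ ⋃ x ∈ t, {y | Agr (n x) x y} := by
    rw [ht]
    trivial
  rw [Set.mem_iUnion₂] at hx
  obtain ⟨z, hz, hzx⟩ := hx
  have h1 : f x = f z := hn z x hzx
  have h2 : f y = f z := hn z y (Agr.trans hzx (hxy.mono (Finset.le_sup hz)))
  rw [h1, h2]

theorem cont_no_hom {p : ℕ} [Fact p.Prime] {c : ℕ} (hc : 3 ≤ c) (hp : c + 3 < p) {H : Type}
    (A : SimpleGraph H) (hA : C4free A) (hcol : A.Colorable c) (f : XX p → H)
    (hf : ∀ h, IsOpen (f ⁻¹' {h})) : ∃ x i, ¬ A.Adj (f x) (f (TT i x)) := by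
  obtain ⟨n, hn⟩ := exists_level f hf
  refine no_hom (sys p n) hc (fun α B hB C => no_good_zero hp n α B hB C) n H A hA hcol f ?_
  rintro x y ⟨h1, h2⟩
  exact hn x y ⟨h1, h2⟩

end Pool.Agent.Helper18.C4
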