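import Pool.Agent.Helper18.C4.System

namespace Pool.Agent.Helper18.C4

/-! ### Radius zero -/

/-- The class of a configuration. -/
def cls {α : Type} {c : ℕ} (f : α → Fin c) : Cfg α → Fin c ⊕ Fin 3
  | Cfg.uu s => Sum.inl (f s)
  | Cfg.ee i => Sum.inr i
  | Cfg.bb i _ => Sum.inr (i + 1)

/-- The direction of a class. -/
def dir {c : ℕ} : Fin c ⊕ Fin 3 → Fin 3
  | Sum.inl _ => 0
  | Sum.inr j => j

theorem cls_not {α : Type} {A : SimpleGraph α} {c : ℕ} (f : A.Coloring (Fin c)) {g g' : Cfg α}
    (h : cls f g = cls f g') : ¬ Cmp A (lab g (dir (cls f g))) (lab g' (dir (cls f g))) := by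
  have hne : ∀ i : Fin 3, ¬ i + 1 = i := by decide
  have key : ∀ (g : Cfg α) (j : Fin 3), cls f g = Sum.inr j →
      lab g j = Lab.e ∨ ∃ w, lab g j = Lab.b w := by
    intro g j hg
    cases g with
    | ee i =>
      left
      have : i = j := Sum.inr.inj hg
      simp [lab, this]
    | bb i w =>
      right
      have : i + 1 = j := Sum.inr.inj hg
      subst this
      exact ⟨w, by simp [lab, hne i]⟩
    | uu s => cases hg
  intro hc
  rcases hgc : cls f g with k | j
  · rw [hgc] at h
    cases g with
    | ee i => cases hgc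
    | bb i w => cases hgc
    | uu s =>
      cases g' with
      | ee i => cases h
      | bb i w => cases h
      | uu s' =>
        have h1 : f s = k := Sum.inl.inj hgc
        have h2 : k = f s' := Sum.inl.inj h
        simp only [lab] at hc
        cases hc with
        | uu hadj => exact f.valid hadj (h1.trans h2)
  · rw [hgc] at h hc
    have h1 := key g j hgc
    have h2 := key g' j h.symm
    simp only [dir] at hc
    rcases h1 with h1 | ⟨w, h1⟩ <;> rcases h2 with h2 | ⟨w', h2⟩ <;> rw [h1, h2] at hc <;> cases hc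

theorem no_good_zero {p : ℕ} [Fact p.Prime] {c : ℕ} (hp : c + 3 < p) (K : ℕ) (α : Type)
    (A : SimpleGraph α) (hcol : A.Colorable c) (C : XX p → Cfg α) : ¬ Good (sys p K) A 0 C := by
  rintro ⟨hV, hE⟩
  obtain ⟨f⟩ := hcol
  have hp1 : (1 : ZMod p) ≠ 0 := one_ne_zero
  let one' : NZ p := ⟨1, hp1⟩
  let G := ∀ L : Fin (K + 1), Q p L
  have : Fintype G := Fintype.ofFinite G
  let ext : G → ∀ L, Q p L := fun q L => if h : L < K + 1 then q ⟨L, h⟩ else 1
  let Cb : G → Cfg α := fun q => C (ext q, fun _ => one')
  let act : G → Fin 3 → ZMod p → G := fun q i a L => q L * rho i a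
  have hCb : ∀ q i (a : ZMod p), a ≠ 0 → Cmp A (lab (Cb q) i) (lab (Cb (act q i a)) i) := by
    intro q i a ha
    let x : XX p := (ext q, fun w => if w = [i] then ⟨a, ha⟩ else one')
    have h1 : C x = Cb q := by
      refine hV _ _ ⟨fun _ _ => rfl, fun w hw => ?_⟩
      have hw' : w = [] := List.eq_nil_of_length_eq_zero (Nat.le_zero.1 hw)
      subst hw'
      simp [x]
    have h2 : C (TT i x) = Cb (act q i a) := by
      refine hV _ _ ⟨fun L hL => ?_, fun w hw => ?_⟩
      · have hL' : L < K + 1 := Nat.lt_succ_of_le hL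
        show ext q L * rho i (if [i] = [i] then (⟨a, ha⟩ : NZ p) else one').1 = ext (act q i a) L
        simp only [ext, hL', dif_pos, if_true, act]
      · have hw' : w = [] := List.eq_nil_of_length_eq_zero (Nat.le_zero.1 hw)
        subst hw'
        show rec1 i x.2 [] = one'
        simp [rec1, st, x]
    have := hE x i
    rw [h1] at this
    have h3 : (sys p K).T i x = TT i x := rfl
    rw [h3, h2] at this
    exact this
  let F : G × ZMod p → (Fin c ⊕ Fin 3) × G := fun y =>
    (cls f (Cb y.1), act y.1 (dir (cls f (Cb y.1))) y.2)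
  have hinj : Function.Injective F := by
    rintro ⟨q, a⟩ ⟨q', a'⟩ h
    have h1 : cls f (Cb q) = cls f (Cb q') := congrArg Prod.fst h
    have h2 : act q (dir (cls f (Cb q))) a = act q' (dir (cls f (Cb q'))) a' := congrArg Prod.snd h
    rw [← h1] at h2
    have h3 : act q (dir (cls f (Cb q))) (a - a') = q' := by
      funext L
      have := congrFun h2 L
      show q L * rho _ (a - a') = q' L
      have h4 : q L * rho (dir (cls f (Cb q))) a = q' L * rho (dir (cls f (Cb q))) a' := this
      rw [sub_eq_add_neg, ← rho_mul, ← mul_assoc, h4, mul_assoc, rho_mul, add_neg_cancel, rho_zero,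
        mul_one]
    by_cases ha : a = a'
    · subst ha
      have : q = q' := by
        rw [← h3, sub_self]
        funext L
        show q L = q L * rho _ 0
        rw [rho_zero, mul_one]
      rw [this]
    · exfalso
      have h4 := hCb q (dir (cls f (Cb q))) (a - a') (sub_ne_zero.2 ha)
      rw [h3] at h4
      exact cls_not f h1 h4
  have hcard := Fintype.card_le_of_injective F hinj
  rw [Fintype.card_prod, Fintype.card_prod, Fintype.card_sum, Fintype.card_fin, Fintype.card_fin,
    ZMod.card, mul_comm] at hcard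
  have hpos : 0 < Fintype.card G := Fintype.card_pos
  have := Nat.le_of_mul_le_mul_right hcard hpos
  omega

/-! ### Freeness -/

/-- Following the colours of a word. -/
def run {p : ℕ} : List (Fin 3) → XX p → XX p
  | [], x => x
  | i :: w, x => run w (TT i x)

/-- The first basis vector. -/
def del {p L : ℕ} : Vec p L := fun w => if w.1 = [] then 1 else 0

theorem run_prod {p : ℕ} [Fact p.Prime] (L : ℕ) : ∀ (w : List (Fin 3)) (hw : w.length ≤ L)
    (_ : w.IsChain (· ≠ ·)) (x : XX p), ∃ P : Q p L, (run w x).1 L = x.1 L * P ∧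
      (show Equiv.Perm (Vec p L) from P) del ⟨w, hw⟩ ≠ 0 ∧
      ∀ v : {l : List (Fin 3) // l.length ≤ L}, w.length < v.1.length →
        (show Equiv.Perm (Vec p L) from P) del v = 0 := by
  intro w
  induction w with
  | nil =>
    intro hw _ x
    refine ⟨1, (mul_one _).symm, ?_, ?_⟩
    · show (del : Vec p L) ⟨[], hw⟩ ≠ 0
      simp [del]
    · intro v hv
      show del v = 0
      have : v.1 ≠ [] := by
        intro h
        rw [h] at hv
        simp at hv
      simp [del, this]
  | cons i w ih =>
    intro hw hc x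
    have hw' : w.length ≤ L := by
      rw [List.length_cons] at hw
      omega
    have hc' : w.IsChain (· ≠ ·) := hc.tail
    have hhead : w.head? ≠ some i := by
      intro h
      rcases w with _ | ⟨j, w⟩
      · simp at h
      · have : j = i := by simpa using h
        subst this
        simp at hc
    obtain ⟨P, hP1, hP2, hP3⟩ := ih hw' hc' (TT i x)
    refine ⟨rho i (x.2 [i]).1 * P, ?_, ?_, ?_⟩
    · show (run w (TT i x)).1 L = _
      rw [hP1, ← mul_assoc]
      rfl
    · show tr i (x.2 [i]).1 ((show Equiv.Perm (Vec p L) from P) del) ⟨i :: w, hw⟩ ≠ 0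
      have h0 := hP3 ⟨i :: w, hw⟩ (by simp)
      show (show Equiv.Perm (Vec p L) from P) del ⟨i :: w, hw⟩ + (x.2 [i]).1 *
        nil i ((show Equiv.Perm (Vec p L) from P) del) ⟨i :: w, hw⟩ ≠ 0
      rw [h0, zero_add]
      have h1 : nil i ((show Equiv.Perm (Vec p L) from P) del) ⟨i :: w, hw⟩ =
          (show Equiv.Perm (Vec p L) from P) del ⟨w, hw'⟩ := by
        simp [nil, hhead]
      rw [h1]
      exact mul_ne_zero (x.2 [i]).2 hP2
    · rintro ⟨v, hv⟩ hlt
      show (show Equiv.Perm (Vec p L) from P) del ⟨v, hv⟩ + (x.2 [i]).1 *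
        nil i ((show Equiv.Perm (Vec p L) from P) del) ⟨v, hv⟩ = 0
      have hlt' : w.length + 1 < v.length := hlt
      rw [hP3 ⟨v, hv⟩ (by show w.length < v.length; omega), zero_add]
      rcases v with _ | ⟨j, v⟩
      · simp at hlt'
      · simp only [nil]
        split_ifs
        · rw [hP3 ⟨v, _⟩ (by
            show w.length < v.length
            rw [List.length_cons] at hlt'
            omega), mul_zero]
        · rw [mul_zero]

theorem run_ne {p : ℕ} [Fact p.Prime] {w : List (Fin 3)} (hw : w ≠ []) (hc : w.IsChain (· ≠ ·))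
    (x : XX p) : run w x ≠ x := by
  intro h
  obtain ⟨P, h1, h2, _⟩ := run_prod w.length w le_rfl hc x
  rw [h] at h1
  have hP : P = 1 := by
    have := congrArg (fun g => (x.1 w.length)⁻¹ * g) h1
    simpa using this.symm
  rw [hP] at h2
  apply h2
  show del (⟨w, le_rfl⟩ : {l : List (Fin 3) // l.length ≤ w.length}) = 0
  simp [del, hw]

/-- The graph. -/
def GG (p : ℕ) [Fact p.Prime] : SimpleGraph (XX p) where
  Adj x y := ∃ i, TT i x = y
  symm := ⟨by
    rintro x y ⟨i, rfl⟩
    exact ⟨i, TT_TT i x⟩⟩
  loopless := ⟨by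
    rintro x ⟨i, h⟩
    exact run_ne (w := [i]) (by simp) (by simp) x h⟩

theorem TT_inj {p : ℕ} [Fact p.Prime] (x : XX p) : Function.Injective fun i => TT i x := by
  intro i j h
  have h' : TT i x = TT j x := h
  by_contra hne
  refine run_ne (w := [i, j]) (by simp) (by simpa using hne) (TT i x) ?_
  show TT j (TT i (TT i x)) = TT i x
  rw [TT_TT, h']

theorem trail_word {p : ℕ} [Fact p.Prime] {x y : XX p} (q : (GG p).Walk x y) (hq : q.IsTrail) :
    ∃ w : List (Fin 3), run w x = y ∧ w.IsChain (· ≠ ·) ∧
      (∀ j ∈ w.head?, s(x, TT j x) ∈ q.edges) ∧ (w = [] → q.length = 0) := by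
  induction q with
  | nil => exact ⟨[], rfl, List.IsChain.nil, by simp, fun _ => rfl⟩
  | @cons u v y h q ih =>
    rw [SimpleGraph.Walk.isTrail_cons] at hq
    obtain ⟨w, h1, h2, h3, h4⟩ := ih hq.1
    obtain ⟨i, hi⟩ := id h
    have hiv : TT i v = u := by rw [← hi, TT_TT]
    refine ⟨i :: w, ?_, ?_, ?_, by simp⟩
    · show run w (TT i u) = y
      rw [hi, h1]
    · rw [List.isChain_cons]
      refine ⟨?_, h2⟩
      intro j hj hij
      subst hij
      have := h3 i hj
      rw [hiv, Sym2.eq_swap] at this
      exact hq.2 this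
    · intro j hj
      have : j = i := by simpa using hj.symm
      subst this
      rw [hi, SimpleGraph.Walk.edges_cons]
      exact List.mem_cons_self

theorem GG_acyclic (p : ℕ) [Fact p.Prime] : (GG p).IsAcyclic := by
  intro x q hq
  obtain ⟨w, h1, h2, _, h4⟩ := trail_word q hq.isTrail
  by_cases hw : w = []
  · have h5 := h4 hw
    have h6 := hq.three_le_length
    omega
  · exact run_ne hw h2 x h1

end Pool.Agent.Helper18.C4
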