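import Mathlib

namespace Pool.Agent.Helper18.C4

/-- Labels of half edges. -/
inductive Lab (α : Type) : Type
  | o : Lab α
  | e : Lab α
  | b : α → Lab α
  | u : α → Lab α

/-- Compatibility of the two labels of one edge. -/
inductive Cmp {α : Type} (A : SimpleGraph α) : Lab α → Lab α → Prop
  | ol (l : Lab α) : Cmp A Lab.o l
  | or (l : Lab α) : Cmp A l Lab.o
  | bu (w : α) : Cmp A (Lab.b w) (Lab.u w)
  | ub (w : α) : Cmp A (Lab.u w) (Lab.b w)
  | uu {s t : α} (h : A.Adj s t) : Cmp A (Lab.u s) (Lab.u t)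

/-- Types of closed sets of labels. -/
inductive KT (α : Type) : Type
  | zero : KT α
  | X : α → KT α
  | Y : α → KT α
  | all : KT α

/-- Membership of a label in a closed set. -/
def Mem {α : Type} (A : SimpleGraph α) (l : Lab α) : KT α → Prop
  | KT.zero => l = Lab.o
  | KT.X w => l = Lab.o ∨ l = Lab.u w
  | KT.Y w => l = Lab.o ∨ l = Lab.b w ∨ ∃ v, A.Adj w v ∧ l = Lab.u v
  | KT.all => True

/-- No cycle of length four. -/
def C4free {α : Type} (A : SimpleGraph α) : Prop :=
  ∀ a b c d, A.Adj a b → A.Adj b c → A.Adj c d → A.Adj d a → a = c ∨ b = d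

theorem closure_exists {α : Type} {A : SimpleGraph α} (hA : C4free A) (S : Set (Lab α)) :
    ∃ k : KT α, (∀ l ∈ S, Mem A l k) ∧
      ∀ l, Mem A l k → ∀ m, (∀ s ∈ S, Cmp A s m) → Cmp A l m := by
  classical
  by_cases h0 : ∀ s ∈ S, s = Lab.o
  · refine ⟨KT.zero, fun l hl => h0 l hl, ?_⟩
    intro l hl m _
    have : l = Lab.o := hl
    subst this
    exact Cmp.ol m
  by_cases hN : ∀ m, (∀ s ∈ S, Cmp A s m) → m = Lab.o
  · refine ⟨KT.all, fun l _ => trivial, ?_⟩
    intro l _ m hm
    rw [hN m hm]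
    exact Cmp.or l
  push Not at h0 hN
  obtain ⟨s0, hs0, hs0o⟩ := h0
  obtain ⟨m, hm, hmo⟩ := hN
  cases m with
  | o => exact absurd rfl hmo
  | e =>
    have h := hm s0 hs0
    cases h with
    | ol => exact absurd rfl hs0o
  | b w =>
    refine ⟨KT.X w, ?_, ?_⟩
    · intro l hl
      have h := hm l hl
      cases h with
      | ol => exact Or.inl rfl
      | ub => exact Or.inr rfl
    · have hu : Lab.u w ∈ S := by
        have h := hm s0 hs0
        cases h with
        | ol => exact absurd rfl hs0o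
        | ub => exact hs0
      intro l hl m hm'
      rcases hl with rfl | rfl
      · exact Cmp.ol m
      · exact hm' _ hu
  | u w =>
    have hY : ∀ l ∈ S, Mem A l (KT.Y w) := by
      intro l hl
      have h := hm l hl
      cases h with
      | ol => exact Or.inl rfl
      | bu => exact Or.inr (Or.inl rfl)
      | uu h => exact Or.inr (Or.inr ⟨_, h.symm, rfl⟩)
    by_cases hb : Lab.b w ∈ S
    · refine ⟨KT.Y w, hY, ?_⟩
      intro l hl m hm'
      have h := hm' _ hb
      cases h with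
      | or => exact Cmp.or l
      | bu =>
        rcases hl with rfl | rfl | ⟨v, hv, rfl⟩
        · exact Cmp.ol _
        · exact Cmp.bu w
        · exact Cmp.uu hv.symm
    · by_cases h2 : ∃ v v', v ≠ v' ∧ Lab.u v ∈ S ∧ Lab.u v' ∈ S
      · obtain ⟨v, v', hne, hv, hv'⟩ := h2
        refine ⟨KT.Y w, hY, ?_⟩
        have hwv : A.Adj w v := by
          have := hm _ hv
          cases this with
          | uu h => exact h.symm
        have hwv' : A.Adj w v' := by
          have := hm _ hv'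
          cases this with
          | uu h => exact h.symm
        intro l hl m hm'
        have h1 := hm' _ hv
        have h3 := hm' _ hv'
        cases m with
        | o => exact Cmp.or l
        | e => cases h1
        | b x =>
          exfalso
          cases h1
          cases h3
          exact hne rfl
        | u x =>
          have ha : A.Adj v x := by
            cases h1 with
            | uu h => exact h
          have ha' : A.Adj v' x := by
            cases h3 with
            | uu h => exact h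
          have hwx : w = x := by
            rcases hA w v x v' hwv ha ha'.symm hwv'.symm with h | h
            · exact h
            · exact absurd h hne
          subst hwx
          rcases hl with rfl | rfl | ⟨y, hy, rfl⟩
          · exact Cmp.ol _
          · exact Cmp.bu w
          · exact Cmp.uu hy.symm
      · push Not at h2
        have hs : ∃ v, s0 = Lab.u v := by
          rcases hY s0 hs0 with h | h | ⟨v, _, h⟩
          · exact absurd h hs0o
          · exact absurd (h ▸ hs0) hb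
          · exact ⟨v, h⟩
        obtain ⟨v, rfl⟩ := hs
        refine ⟨KT.X v, ?_, ?_⟩
        · intro l hl
          rcases hY l hl with h | h | ⟨v', _, h⟩
          · exact Or.inl h
          · exact absurd (h ▸ hl) hb
          · subst h
            by_cases hvv : v = v'
            · subst hvv
              exact Or.inr rfl
            · exact absurd hl (h2 v v' hvv hs0)
        · intro l hl m hm'
          rcases hl with rfl | rfl
          · exact Cmp.ol m
          · exact hm' _ hs0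

/-- Configurations at a vertex. -/
inductive Cfg (α : Type) : Type
  | ee : Fin 3 → Cfg α
  | bb : Fin 3 → α → Cfg α
  | uu : α → Cfg α

/-- The labels of a configuration. -/
def lab {α : Type} : Cfg α → Fin 3 → Lab α
  | Cfg.ee i, j => if j = i then Lab.e else Lab.o
  | Cfg.bb i w, j => if j = i then Lab.o else Lab.b w
  | Cfg.uu s, _ => Lab.u s

/-- The new vertices: midpoints of pairs without a common neighbour. -/
def Mid {α : Type} (A : SimpleGraph α) : Type :=
  {z : Sym2 α // ¬ z.IsDiag ∧ ¬ ∃ x, ∀ a ∈ z, A.Adj a x}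

/-- One step of the free closure. -/
def nxt {α : Type} (A : SimpleGraph α) : SimpleGraph (α ⊕ Mid A) where
  Adj p q := match p, q with
    | Sum.inl a, Sum.inl b => A.Adj a b
    | Sum.inl a, Sum.inr z => a ∈ z.1
    | Sum.inr z, Sum.inl a => a ∈ z.1
    | Sum.inr _, Sum.inr _ => False
  symm := ⟨by
    rintro (a | z) (b | z') h
    · exact SimpleGraph.Adj.symm h
    · exact h
    · exact h
    · exact h⟩
  loopless := ⟨by
    rintro (a | z) h
    · exact A.loopless.irrefl a h
    · exact h⟩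

theorem nxt_c4free {α : Type} {A : SimpleGraph α} (hA : C4free A) : C4free (nxt A) := by
  classical
  rintro (a | a) (b | b) (c | c) (d | d) h1 h2 h3 h4
  · rcases hA a b c d h1 h2 h3 h4 with h | h
    · exact Or.inl (congrArg _ h)
    · exact Or.inr (congrArg _ h)
  · -- a b c old, d new
    left
    by_contra hne
    have hne' : a ≠ c := fun h => hne (congrArg _ h)
    have h3' : c ∈ d.1 := h3
    have h4' : a ∈ d.1 := h4
    refine d.2.2 ⟨b, fun x hx => ?_⟩
    have hz : d.1 = s(a, c) := (Sym2.mem_and_mem_iff hne').1 ⟨h4', h3'⟩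
    rw [hz, Sym2.mem_iff] at hx
    rcases hx with rfl | rfl
    · exact h1
    · exact (h2 : A.Adj b x).symm
  · -- a b d old, c new
    right
    by_contra hne
    have hne' : b ≠ d := fun h => hne (congrArg _ h)
    have h2' : b ∈ c.1 := h2
    have h3' : d ∈ c.1 := h3
    refine c.2.2 ⟨a, fun x hx => ?_⟩
    have hz : c.1 = s(b, d) := (Sym2.mem_and_mem_iff hne').1 ⟨h2', h3'⟩
    rw [hz, Sym2.mem_iff] at hx
    rcases hx with rfl | rfl
    · exact (h1 : A.Adj a x).symm
    · exact h4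
  · exact absurd h3 (fun h => h)
  · -- b new, others old
    left
    by_contra hne
    have hne' : a ≠ c := fun h => hne (congrArg _ h)
    have h1' : a ∈ b.1 := h1
    have h2' : c ∈ b.1 := h2
    refine b.2.2 ⟨d, fun x hx => ?_⟩
    have hz : b.1 = s(a, c) := (Sym2.mem_and_mem_iff hne').1 ⟨h1', h2'⟩
    rw [hz, Sym2.mem_iff] at hx
    rcases hx with rfl | rfl
    · exact (h4 : A.Adj d x).symm
    · exact h3
  · -- b d new, a c old
    by_cases hac : a = c
    · exact Or.inl (congrArg _ hac)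
    right
    have hb : b.1 = s(a, c) := (Sym2.mem_and_mem_iff hac).1 ⟨h1, h2⟩
    have hd : d.1 = s(a, c) := (Sym2.mem_and_mem_iff hac).1 ⟨h4, h3⟩
    exact congrArg _ (Subtype.ext (hb.trans hd.symm))
  · exact absurd h2 (fun h => h)
  · exact absurd h2 (fun h => h)
  · -- a new, others old
    right
    by_contra hne
    have hne' : b ≠ d := fun h => hne (congrArg _ h)
    have h1' : b ∈ a.1 := h1
    have h4' : d ∈ a.1 := h4
    refine a.2.2 ⟨c, fun x hx => ?_⟩
    have hz : a.1 = s(b, d) := (Sym2.mem_and_mem_iff hne').1 ⟨h1', h4'⟩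
    rw [hz, Sym2.mem_iff] at hx
    rcases hx with rfl | rfl
    · exact h2
    · exact (h3 : A.Adj c x).symm
  · exact absurd h4 (fun h => h)
  · -- a c new, b d old
    by_cases hbd : b = d
    · exact Or.inr (congrArg _ hbd)
    left
    have ha : a.1 = s(b, d) := (Sym2.mem_and_mem_iff hbd).1 ⟨h1, h4⟩
    have hc : c.1 = s(b, d) := (Sym2.mem_and_mem_iff hbd).1 ⟨h2, h3⟩
    exact congrArg _ (Subtype.ext (ha.trans hc.symm))
  · exact absurd h4 (fun h => h)
  · exact absurd h1 (fun h => h)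
  · exact absurd h1 (fun h => h)
  · exact absurd h1 (fun h => h)
  · exact absurd h1 (fun h => h)

theorem nxt_colorable {α : Type} {A : SimpleGraph α} {c : ℕ} (hc : 3 ≤ c)
    (h : A.Colorable c) : (nxt A).Colorable c := by
  classical
  obtain ⟨f⟩ := h
  have hch : ∀ z : Mid A, ∃ k : Fin c, ∀ a ∈ z.1, f a ≠ k := by
    rintro ⟨z, hz⟩
    induction z using Sym2.ind with
    | _ x y =>
      have hcard : ({f x, f y} : Finset (Fin c)).card < (Finset.univ : Finset (Fin c)).card := by
        have h1 : ({f x, f y} : Finset (Fin c)).card ≤ 2 := Finset.card_le_two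
        rw [Finset.card_univ, Fintype.card_fin]
        omega
      obtain ⟨k, _, hk⟩ := Finset.exists_mem_notMem_of_card_lt_card hcard
      refine ⟨k, fun a ha => ?_⟩
      have ha' : a ∈ (s(x, y) : Sym2 α) := ha
      rw [Sym2.mem_iff] at ha'
      intro hh
      apply hk
      rcases ha' with rfl | rfl
      · simp [hh]
      · simp [hh]
  choose g hg using hch
  refine ⟨SimpleGraph.Coloring.mk (fun p => match p with
    | Sum.inl a => f a
    | Sum.inr z => g z) ?_⟩
  rintro (a | z) (b | z') hab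
  · exact f.valid hab
  · exact hg z' a hab
  · exact (hg z b hab).symm
  · exact absurd hab (fun h => h)

/-- A closed set of old labels fits a new label. -/
def Fit {α : Type} (A : SimpleGraph α) (k : KT α) : Lab (α ⊕ Mid A) → Prop
  | Lab.o => True
  | Lab.e => k = KT.all
  | Lab.b (Sum.inl w) => k = KT.all ∨ k = KT.Y w
  | Lab.b (Sum.inr _) => False
  | Lab.u (Sum.inl s) => k = KT.all ∨ k = KT.X s ∨ ∃ v, A.Adj s v ∧ k = KT.Y v
  | Lab.u (Sum.inr z) => k = KT.all ∨ ∃ v ∈ z.1, k = KT.Y v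

theorem all_zero {α : Type} {A : SimpleGraph α} {k : KT α}
    (h : ∀ a, Mem A a KT.all → ∀ b, Mem A b k → Cmp A a b) : k = KT.zero := by
  have he : ∀ b, Mem A b k → b = Lab.o := by
    intro b hb
    have := h Lab.e trivial b hb
    cases this with
    | or => rfl
  cases k with
  | zero => rfl
  | X w => exact absurd (he (Lab.u w) (Or.inr rfl)) (by simp)
  | Y w => exact absurd (he (Lab.b w) (Or.inr (Or.inl rfl))) (by simp)
  | all => exact absurd (he Lab.e trivial) (by simp)

theorem fit_zero {α : Type} {A : SimpleGraph α} {l : Lab (α ⊕ Mid A)}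
    (h : Fit A KT.zero l) : l = Lab.o := by
  cases l with
  | o => rfl
  | e => exact absurd h (by simp [Fit])
  | b w => cases w <;> exact absurd h (by simp [Fit])
  | u w => cases w <;> exact absurd h (by simp [Fit])

theorem fit_X {α : Type} {A : SimpleGraph α} {w : α} {l : Lab (α ⊕ Mid A)}
    (h : Fit A (KT.X w) l) : l = Lab.o ∨ l = Lab.u (Sum.inl w) := by
  cases l with
  | o => exact Or.inl rfl
  | e => exact absurd h (by simp [Fit])
  | b w => cases w <;> exact absurd h (by simp [Fit])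
  | u s =>
    cases s with
    | inl s =>
      right
      rcases h with h | h | ⟨v, _, h⟩
      · cases h
      · cases h
        rfl
      · cases h
    | inr z => exact absurd h (by simp [Fit])

/-- If `Y w` is compatible with `k` then `k` is zero or `X w`. -/
theorem Y_dual {α : Type} {A : SimpleGraph α} {w : α} {k : KT α}
    (h : ∀ a, Mem A a (KT.Y w) → ∀ b, Mem A b k → Cmp A a b) : k = KT.zero ∨ k = KT.X w := by
  have he : ∀ b, Mem A b k → b = Lab.o ∨ b = Lab.u w := by
    intro b hb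
    have := h (Lab.b w) (Or.inr (Or.inl rfl)) b hb
    cases this with
    | or => exact Or.inl rfl
    | bu => exact Or.inr rfl
  cases k with
  | zero => exact Or.inl rfl
  | X v =>
    right
    rcases he (Lab.u v) (Or.inr rfl) with h' | h'
    · cases h'
    · cases h'
      rfl
  | Y v =>
    rcases he (Lab.b v) (Or.inr (Or.inl rfl)) with h' | h' <;> cases h'
  | all =>
    rcases he Lab.e trivial with h' | h' <;> cases h'

theorem Y_fit {α : Type} {A : SimpleGraph α} {w : α} {k : KT α} {l : Lab (α ⊕ Mid A)}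
    (h : ∀ a, Mem A a (KT.Y w) → ∀ b, Mem A b k → Cmp A a b) (hl : Fit A k l) :
    l = Lab.o ∨ l = Lab.u (Sum.inl w) := by
  rcases Y_dual h with rfl | rfl
  · exact Or.inl (fit_zero hl)
  · exact fit_X hl

theorem all_fit {α : Type} {A : SimpleGraph α} {k : KT α} {l : Lab (α ⊕ Mid A)}
    (h : ∀ a, Mem A a KT.all → ∀ b, Mem A b k → Cmp A a b) (hl : Fit A k l) :
    l = Lab.o := by
  rw [all_zero h] at hl
  exact fit_zero hl

theorem X_fit {α : Type} {A : SimpleGraph α} {s : α} {k : KT α} {l : Lab (α ⊕ Mid A)}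
    (h : ∀ a, Mem A a (KT.X s) → ∀ b, Mem A b k → Cmp A a b) (hl : Fit A k l) :
    Cmp (nxt A) (Lab.u (Sum.inl s)) l := by
  have he : ∀ b, Mem A b k → Cmp A (Lab.u s) b := fun b hb => h _ (Or.inr rfl) b hb
  cases k with
  | zero =>
    rw [fit_zero hl]
    exact Cmp.or _
  | X t =>
    have hst : A.Adj s t := by
      have := he (Lab.u t) (Or.inr rfl)
      cases this with
      | uu h => exact h
    rcases fit_X hl with rfl | rfl
    · exact Cmp.or _
    · exact Cmp.uu hst
  | Y t =>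
    have hst : t = s := by
      have := he (Lab.b t) (Or.inr (Or.inl rfl))
      cases this with
      | ub => rfl
    subst hst
    cases l with
    | o => exact Cmp.or _
    | e => cases hl
    | b w =>
      cases w with
      | inl w =>
        rcases hl with hl | hl
        · cases hl
        · cases hl
          exact Cmp.ub _
      | inr w => exact absurd hl (fun h => h)
    | u w =>
      cases w with
      | inl r =>
        rcases hl with hl | hl | ⟨v, hv, hl⟩
        · cases hl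
        · cases hl
        · cases hl
          exact Cmp.uu hv.symm
      | inr z =>
        rcases hl with hl | ⟨v, hv, hl⟩
        · cases hl
        · cases hl
          exact Cmp.uu hv
  | all =>
    have := he Lab.e trivial
    cases this

theorem edge_ok {α : Type} {A : SimpleGraph α} {k k' : KT α} {l l' : Lab (α ⊕ Mid A)}
    (h : ∀ a, Mem A a k → ∀ b, Mem A b k' → Cmp A a b) (hl : Fit A k l) (hl' : Fit A k' l') :
    Cmp (nxt A) l l' := by
  cases l with
  | o => exact Cmp.ol _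
  | e =>
    cases hl
    rw [all_fit h hl']
    exact Cmp.or _
  | b w =>
    cases w with
    | inl w =>
      rcases hl with rfl | rfl
      · rw [all_fit h hl']
        exact Cmp.or _
      · rcases Y_fit h hl' with rfl | rfl
        · exact Cmp.or _
        · exact Cmp.bu _
    | inr w => exact absurd hl (fun h => h)
  | u w =>
    cases w with
    | inl s =>
      rcases hl with rfl | rfl | ⟨v, hv, rfl⟩
      · rw [all_fit h hl']
        exact Cmp.or _
      · exact X_fit h hl'
      · rcases Y_fit h hl' with rfl | rfl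
        · exact Cmp.or _
        · exact Cmp.uu hv
    | inr z =>
      rcases hl with rfl | ⟨v, hv, rfl⟩
      · rw [all_fit h hl']
        exact Cmp.or _
      · rcases Y_fit h hl' with rfl | rfl
        · exact Cmp.or _
        · exact Cmp.uu (A := nxt A) hv

/-- `u s` belongs to the closed set `k` (which is not `all`). -/
def Us {α : Type} (A : SimpleGraph α) (s : α) (k : KT α) : Prop :=
  k = KT.X s ∨ ∃ v, A.Adj s v ∧ k = KT.Y v

/-- Three closed sets contain a configuration. -/
def OK3 {α : Type} (A : SimpleGraph α) (a b c : KT α) : Prop :=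
  a = KT.all ∨ b = KT.all ∨ c = KT.all ∨ (∃ w, a = KT.Y w ∧ b = KT.Y w) ∨
    (∃ w, a = KT.Y w ∧ c = KT.Y w) ∨ (∃ w, b = KT.Y w ∧ c = KT.Y w) ∨
    ∃ s, Us A s a ∧ Us A s b ∧ Us A s c

theorem OK3.swap {α : Type} {A : SimpleGraph α} {a b c : KT α} (h : OK3 A a b c) :
    OK3 A b a c := by
  rcases h with h | h | h | ⟨w, h, h'⟩ | ⟨w, h, h'⟩ | ⟨w, h, h'⟩ | ⟨s, h, h', h''⟩
  · exact Or.inr (Or.inl h)
  · exact Or.inl h
  · exact Or.inr (Or.inr (Or.inl h))
  · exact Or.inr (Or.inr (Or.inr (Or.inl ⟨w, h', h⟩)))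
  · exact Or.inr (Or.inr (Or.inr (Or.inr (Or.inr (Or.inl ⟨w, h, h'⟩)))))
  · exact Or.inr (Or.inr (Or.inr (Or.inr (Or.inl ⟨w, h, h'⟩))))
  · exact Or.inr (Or.inr (Or.inr (Or.inr (Or.inr (Or.inr ⟨s, h', h, h''⟩)))))

theorem OK3.swap' {α : Type} {A : SimpleGraph α} {a b c : KT α} (h : OK3 A a b c) :
    OK3 A a c b := by
  rcases h with h | h | h | ⟨w, h, h'⟩ | ⟨w, h, h'⟩ | ⟨w, h, h'⟩ | ⟨s, h, h', h''⟩
  · exact Or.inl h
  · exact Or.inr (Or.inr (Or.inl h))
  · exact Or.inr (Or.inl h)
  · exact Or.inr (Or.inr (Or.inr (Or.inr (Or.inl ⟨w, h, h'⟩))))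
  · exact Or.inr (Or.inr (Or.inr (Or.inl ⟨w, h, h'⟩)))
  · exact Or.inr (Or.inr (Or.inr (Or.inr (Or.inr (Or.inl ⟨w, h', h⟩)))))
  · exact Or.inr (Or.inr (Or.inr (Or.inr (Or.inr (Or.inr ⟨s, h, h'', h'⟩)))))

/-- A pair of sets which are not `Y w, Y w`. -/
def NB {α : Type} (p q : KT α) : Prop :=
  p ≠ KT.all ∧ q ≠ KT.all ∧ ¬ ∃ w, p = KT.Y w ∧ q = KT.Y w

theorem nonB {α : Type} {S T : Set (KT α)} (hS : ∃ k ∈ S, k ≠ KT.all) (hT : ∃ k ∈ T, k ≠ KT.all)
    (h : ¬ ∃ w, (∀ k ∈ S, k = KT.all ∨ k = KT.Y w) ∧ (∀ k ∈ T, k = KT.all ∨ k = KT.Y w)) :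
    ∃ p ∈ S, ∃ q ∈ T, NB p q := by
  by_contra hc
  push Not at hc
  have hc' : ∀ p ∈ S, ∀ q ∈ T, p ≠ KT.all → q ≠ KT.all → ∃ w, p = KT.Y w ∧ q = KT.Y w := by
    intro p hp q hq h1 h2
    by_contra h3
    exact hc p hp q hq ⟨h1, h2, h3⟩
  obtain ⟨k0, hk0, hk0'⟩ := hS
  obtain ⟨k1, hk1, hk1'⟩ := hT
  obtain ⟨w, rfl, rfl⟩ := hc' k0 hk0 k1 hk1 hk0' hk1'
  apply h
  refine ⟨w, fun k hk => ?_, fun k hk => ?_⟩
  · by_cases hka : k = KT.all
    · exact Or.inl hka
    · obtain ⟨w', h1, h2⟩ := hc' k hk _ hk1 hka hk1'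
      cases h2
      exact Or.inr h1
  · by_cases hka : k = KT.all
    · exact Or.inl hka
    · obtain ⟨w', h1, h2⟩ := hc' _ hk0 k hk hk0' hka
      cases h1
      exact Or.inr h2

theorem zero_case {α : Type} {A : SimpleGraph α} {S0 S1 S2 : Set (KT α)}
    (h : ∀ a ∈ S0, ∀ b ∈ S1, ∀ c ∈ S2, OK3 A a b c)
    (hn : ∃ p ∈ S1, ∃ q ∈ S2, NB p q) : KT.zero ∉ S0 := by
  intro h0
  obtain ⟨p, hp, q, hq, h1, h2, h3⟩ := hn
  rcases h _ h0 p hp q hq with h | h | h | ⟨w, h, h'⟩ | ⟨w, h, h'⟩ | ⟨w, h, h'⟩ | ⟨s, h, h', h''⟩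
  · cases h
  · exact h1 h
  · exact h2 h
  · cases h
  · cases h
  · exact h3 ⟨w, h, h'⟩
  · rcases h with h | ⟨v, _, h⟩ <;> cases h

theorem us_unique {α : Type} {A : SimpleGraph α} (hA : C4free A) {s s' : α} {p q : KT α}
    (hnb : NB p q) (h1 : Us A s p) (h2 : Us A s q) (h3 : Us A s' p) (h4 : Us A s' q) : s = s' := by
  rcases h1 with h1 | ⟨v, hv, h1⟩
  · subst h1
    rcases h3 with h3 | ⟨v, _, h3⟩
    · cases h3
      rfl
    · cases h3
  · subst h1
    rcases h3 with h3 | ⟨v', hv', h3⟩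
    · cases h3
    cases h3
    rcases h2 with h2 | ⟨w, hw, h2⟩
    · subst h2
      rcases h4 with h4 | ⟨w, _, h4⟩
      · cases h4
        rfl
      · cases h4
    · subst h2
      rcases h4 with h4 | ⟨w', hw', h4⟩
      · cases h4
      cases h4
      rcases hA s v s' w hv hv'.symm hw' hw.symm with h | h
      · exact h
      · subst h
        exact absurd ⟨v, rfl, rfl⟩ hnb.2.2

theorem X_case {α : Type} {A : SimpleGraph α} (hA : C4free A) {S0 S1 S2 : Set (KT α)}
    (h : ∀ a ∈ S0, ∀ b ∈ S1, ∀ c ∈ S2, OK3 A a b c)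
    (hn : ∃ p ∈ S1, ∃ q ∈ S2, NB p q) {s : α} (hs : KT.X s ∈ S0) :
    (∀ k ∈ S0, k = KT.all ∨ Us A s k) ∧ (∀ k ∈ S1, k = KT.all ∨ Us A s k) ∧
      (∀ k ∈ S2, k = KT.all ∨ Us A s k) := by
  obtain ⟨p, hp, q, hq, hnb⟩ := hn
  have hpq : Us A s p ∧ Us A s q := by
    rcases h _ hs p hp q hq with h | h | h | ⟨w, h, h'⟩ | ⟨w, h, h'⟩ | ⟨w, h, h'⟩ | ⟨s', h, h', h''⟩
    · cases h
    · exact absurd h hnb.1
    · exact absurd h hnb.2.1
    · cases h
    · cases h
    · exact absurd ⟨w, h, h'⟩ hnb.2.2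
    · rcases h with h | ⟨v, _, h⟩
      · cases h
        exact ⟨h', h''⟩
      · cases h
  refine ⟨?_, ?_, ?_⟩
  · intro r hr
    rcases h r hr p hp q hq with h | h | h | ⟨w, h, h'⟩ | ⟨w, h, h'⟩ | ⟨w, h, h'⟩ |
      ⟨s', h, h', h''⟩
    · exact Or.inl h
    · exact absurd h hnb.1
    · exact absurd h hnb.2.1
    · right
      rw [h, ← h']
      exact hpq.1
    · right
      rw [h, ← h']
      exact hpq.2
    · exact absurd ⟨w, h, h'⟩ hnb.2.2
    · right
      rw [us_unique hA hnb hpq.1 hpq.2 h' h'']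
      exact h
  · intro r hr
    rcases h _ hs r hr q hq with h | h | h | ⟨w, h, h'⟩ | ⟨w, h, h'⟩ | ⟨w, h, h'⟩ |
      ⟨s', h, h', h''⟩
    · cases h
    · exact Or.inl h
    · exact absurd h hnb.2.1
    · cases h
    · cases h
    · right
      rw [h, ← h']
      exact hpq.2
    · right
      rcases h with h | ⟨v, _, h⟩
      · cases h
        exact h'
      · cases h
  · intro r hr
    rcases h _ hs p hp r hr with h | h | h | ⟨w, h, h'⟩ | ⟨w, h, h'⟩ | ⟨w, h, h'⟩ |
      ⟨s', h, h', h''⟩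
    · cases h
    · exact absurd h hnb.1
    · exact Or.inl h
    · cases h
    · cases h
    · right
      rw [h', ← h]
      exact hpq.1
    · right
      rcases h with h | ⟨v, _, h⟩
      · cases h
        exact h''
      · cases h

theorem Y_case {α : Type} {A : SimpleGraph α} (hA : C4free A) {V0 V1 V2 : Set α}
    (h : ∀ a ∈ V0, ∀ b ∈ V1, ∀ c ∈ V2, a = b ∨ a = c ∨ b = c ∨
      ∃ s, A.Adj s a ∧ A.Adj s b ∧ A.Adj s c)
    (d01 : ∃ a ∈ V0, ∃ b ∈ V1, a ≠ b) (d02 : ∃ a ∈ V0, ∃ b ∈ V2, a ≠ b)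
    (d12 : ∃ a ∈ V1, ∃ b ∈ V2, a ≠ b) :
    (∃ s, (∀ v ∈ V0, A.Adj s v) ∧ (∀ v ∈ V1, A.Adj s v) ∧ (∀ v ∈ V2, A.Adj s v)) ∨
    (∃ v w, v ≠ w ∧ (∀ x ∈ V0, x = v ∨ x = w) ∧ (∀ x ∈ V1, x = v ∨ x = w) ∧
      (∀ x ∈ V2, x = v ∨ x = w)) := by
  by_cases ht : ∃ a ∈ V0, ∃ b ∈ V1, ∃ c ∈ V2, a ≠ b ∧ a ≠ c ∧ b ≠ c
  · left
    obtain ⟨a, ha, b, hb, c, hc, hab, hac, hbc⟩ := ht
    have hs : ∃ s, A.Adj s a ∧ A.Adj s b ∧ A.Adj s c := by
      rcases h a ha b hb c hc with h | h | h | h
      · exact absurd h hab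
      · exact absurd h hac
      · exact absurd h hbc
      · exact h
    obtain ⟨s, hsa, hsb, hsc⟩ := hs
    refine ⟨s, ?_, ?_, ?_⟩
    · intro x hx
      rcases h x hx b hb c hc with h | h | h | ⟨s', h1, h2, h3⟩
      · rw [h]; exact hsb
      · rw [h]; exact hsc
      · exact absurd h hbc
      · rcases hA s b s' c hsb h2.symm h3 hsc.symm with h | h
        · rw [h]; exact h1
        · exact absurd h hbc
    · intro x hx
      rcases h a ha x hx c hc with h | h | h | ⟨s', h1, h2, h3⟩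
      · rw [← h]; exact hsa
      · exact absurd h hac
      · rw [h]; exact hsc
      · rcases hA s a s' c hsa h1.symm h3 hsc.symm with h | h
        · rw [h]; exact h2
        · exact absurd h hac
    · intro x hx
      rcases h a ha b hb x hx with h | h | h | ⟨s', h1, h2, h3⟩
      · exact absurd h hab
      · rw [← h]; exact hsa
      · rw [← h]; exact hsb
      · rcases hA s a s' b hsa h1.symm h2 hsb.symm with h | h
        · rw [h]; exact h3
        · exact absurd h hab
  · right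
    have ht' : ∀ a ∈ V0, ∀ b ∈ V1, ∀ c ∈ V2, a = b ∨ a = c ∨ b = c := by
      intro a ha b hb c hc
      by_contra hh
      push Not at hh
      exact ht ⟨a, ha, b, hb, c, hc, hh.1, hh.2.1, hh.2.2⟩
    obtain ⟨b, hb, c, hc, hbc⟩ := d12
    have h0 : ∀ x ∈ V0, x = b ∨ x = c := by
      intro x hx
      rcases ht' x hx b hb c hc with h | h | h
      · exact Or.inl h
      · exact Or.inr h
      · exact absurd h hbc
    refine ⟨b, c, hbc, h0, ?_, ?_⟩
    · intro y hy
      by_contra hy'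
      push Not at hy'
      have h1 : ∀ x ∈ V0, x = c := by
        intro x hx
        rcases ht' x hx y hy c hc with h | h | h
        · subst h
          rcases h0 x hx with h | h
          · exact absurd h hy'.1
          · exact absurd h hy'.2
        · exact h
        · exact absurd h hy'.2
      obtain ⟨a, ha, c', hc', hne⟩ := d02
      have hac := h1 a ha
      subst hac
      have h2 : y = c' := by
        rcases ht' a ha y hy c' hc' with h | h | h
        · exact absurd h.symm hy'.2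
        · exact absurd h hne
        · exact h
      have h3 : b = c' := by
        rcases ht' a ha b hb c' hc' with h | h | h
        · exact absurd h.symm hbc
        · exact absurd h hne
        · exact h
      exact hy'.1 (h2.trans h3.symm)
    · intro y hy
      by_contra hy'
      push Not at hy'
      have h1 : ∀ x ∈ V0, x = b := by
        intro x hx
        rcases ht' x hx b hb y hy with h | h | h
        · exact h
        · subst h
          rcases h0 x hx with h | h
          · exact absurd h hy'.1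
          · exact absurd h hy'.2
        · exact absurd h.symm hy'.1
      obtain ⟨a, ha, b', hb', hne⟩ := d01
      have hab := h1 a ha
      subst hab
      have h2 : b' = y := by
        rcases ht' a ha b' hb' y hy with h | h | h
        · exact absurd h hne
        · exact absurd h.symm hy'.1
        · exact h
      have h3 : b' = c := by
        rcases ht' a ha b' hb' c hc with h | h | h
        · exact absurd h hne
        · exact absurd h hbc
        · exact h
      exact hy'.2 (h2.symm.trans h3)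

theorem fit_of_us {α : Type} {A : SimpleGraph α} {s : α} {k : KT α}
    (h : k = KT.all ∨ Us A s k) : Fit A k (Lab.u (Sum.inl s)) := by
  rcases h with h | h | h
  · exact Or.inl h
  · exact Or.inr (Or.inl h)
  · exact Or.inr (Or.inr h)

/-- Classification of the maximal families. -/
theorem main3 {α : Type} {A : SimpleGraph α} (hA : C4free A) {S0 S1 S2 : Set (KT α)}
    (h : ∀ a ∈ S0, ∀ b ∈ S1, ∀ c ∈ S2, OK3 A a b c) :
    (∀ k ∈ S0, k = KT.all) ∨ (∀ k ∈ S1, k = KT.all) ∨ (∀ k ∈ S2, k = KT.all) ∨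
    (∃ w, (∀ k ∈ S0, k = KT.all ∨ k = KT.Y w) ∧ (∀ k ∈ S1, k = KT.all ∨ k = KT.Y w)) ∨
    (∃ w, (∀ k ∈ S0, k = KT.all ∨ k = KT.Y w) ∧ (∀ k ∈ S2, k = KT.all ∨ k = KT.Y w)) ∨
    (∃ w, (∀ k ∈ S1, k = KT.all ∨ k = KT.Y w) ∧ (∀ k ∈ S2, k = KT.all ∨ k = KT.Y w)) ∨
    ∃ s : α ⊕ Mid A, (∀ k ∈ S0, Fit A k (Lab.u s)) ∧ (∀ k ∈ S1, Fit A k (Lab.u s)) ∧
      (∀ k ∈ S2, Fit A k (Lab.u s)) := by
  classical
  by_cases n0 : ∀ k ∈ S0, k = KT.all
  · exact Or.inl n0
  by_cases n1 : ∀ k ∈ S1, k = KT.all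
  · exact Or.inr (Or.inl n1)
  by_cases n2 : ∀ k ∈ S2, k = KT.all
  · exact Or.inr (Or.inr (Or.inl n2))
  by_cases m01 : ∃ w, (∀ k ∈ S0, k = KT.all ∨ k = KT.Y w) ∧ (∀ k ∈ S1, k = KT.all ∨ k = KT.Y w)
  · exact Or.inr (Or.inr (Or.inr (Or.inl m01)))
  by_cases m02 : ∃ w, (∀ k ∈ S0, k = KT.all ∨ k = KT.Y w) ∧ (∀ k ∈ S2, k = KT.all ∨ k = KT.Y w)
  · exact Or.inr (Or.inr (Or.inr (Or.inr (Or.inl m02))))
  by_cases m12 : ∃ w, (∀ k ∈ S1, k = KT.all ∨ k = KT.Y w) ∧ (∀ k ∈ S2, k = KT.all ∨ k = KT.Y w)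
  · exact Or.inr (Or.inr (Or.inr (Or.inr (Or.inr (Or.inl m12)))))
  refine Or.inr (Or.inr (Or.inr (Or.inr (Or.inr (Or.inr ?_)))))
  push Not at n0 n1 n2
  have e01 := nonB n0 n1 m01
  have e02 := nonB n0 n2 m02
  have e12 := nonB n1 n2 m12
  have h102 : ∀ b ∈ S1, ∀ a ∈ S0, ∀ c ∈ S2, OK3 A b a c := fun b hb a ha c hc =>
    (h a ha b hb c hc).swap
  have h201 : ∀ c ∈ S2, ∀ a ∈ S0, ∀ b ∈ S1, OK3 A c a b := fun c hc a ha b hb =>
    (h a ha b hb c hc).swap'.swap
  have z0 := zero_case h e12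
  have z1 := zero_case h102 e02
  have z2 := zero_case h201 e01
  by_cases x0 : ∃ s, KT.X s ∈ S0
  · obtain ⟨s, hs⟩ := x0
    obtain ⟨g0, g1, g2⟩ := X_case hA h e12 hs
    exact ⟨Sum.inl s, fun k hk => fit_of_us (g0 k hk), fun k hk => fit_of_us (g1 k hk),
      fun k hk => fit_of_us (g2 k hk)⟩
  by_cases x1 : ∃ s, KT.X s ∈ S1
  · obtain ⟨s, hs⟩ := x1
    obtain ⟨g0, g1, g2⟩ := X_case hA h102 e02 hs
    exact ⟨Sum.inl s, fun k hk => fit_of_us (g1 k hk), fun k hk => fit_of_us (g0 k hk),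
      fun k hk => fit_of_us (g2 k hk)⟩
  by_cases x2 : ∃ s, KT.X s ∈ S2
  · obtain ⟨s, hs⟩ := x2
    obtain ⟨g0, g1, g2⟩ := X_case hA h201 e01 hs
    exact ⟨Sum.inl s, fun k hk => fit_of_us (g1 k hk), fun k hk => fit_of_us (g2 k hk),
      fun k hk => fit_of_us (g0 k hk)⟩
  have allY : ∀ S : Set (KT α), KT.zero ∉ S → (¬ ∃ s, KT.X s ∈ S) → ∀ k ∈ S,
      k = KT.all ∨ ∃ v, k = KT.Y v := by
    intro S hz hx k hk
    cases k with
    | zero => exact absurd hk hz
    | X s => exact absurd ⟨s, hk⟩ hx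
    | Y v => exact Or.inr ⟨v, rfl⟩
    | all => exact Or.inl rfl
  have y0 := allY S0 z0 x0
  have y1 := allY S1 z1 x1
  have y2 := allY S2 z2 x2
  have dist : ∀ S T : Set (KT α), (∀ k ∈ S, k = KT.all ∨ ∃ v, k = KT.Y v) →
      (∀ k ∈ T, k = KT.all ∨ ∃ v, k = KT.Y v) → (∃ p ∈ S, ∃ q ∈ T, NB p q) →
      ∃ a ∈ {v | KT.Y v ∈ S}, ∃ b ∈ {v | KT.Y v ∈ T}, a ≠ b := by
    rintro S T hS hT ⟨p, hp, q, hq, h1, h2, h3⟩
    rcases hS p hp with h | ⟨v, rfl⟩
    · exact absurd h h1
    rcases hT q hq with h | ⟨w, rfl⟩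
    · exact absurd h h2
    refine ⟨v, hp, w, hq, ?_⟩
    rintro rfl
    exact h3 ⟨v, rfl, rfl⟩
  have tri : ∀ a ∈ {v | KT.Y v ∈ S0}, ∀ b ∈ {v | KT.Y v ∈ S1}, ∀ c ∈ {v | KT.Y v ∈ S2},
      a = b ∨ a = c ∨ b = c ∨ ∃ s, A.Adj s a ∧ A.Adj s b ∧ A.Adj s c := by
    intro a ha b hb c hc
    rcases h _ ha _ hb _ hc with h | h | h | ⟨w, h, h'⟩ | ⟨w, h, h'⟩ | ⟨w, h, h'⟩ |
      ⟨s, h, h', h''⟩
    · cases h
    · cases h
    · cases h
    · cases h; cases h'
      exact Or.inl rfl
    · cases h; cases h'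
      exact Or.inr (Or.inl rfl)
    · cases h; cases h'
      exact Or.inr (Or.inr (Or.inl rfl))
    · right; right; right
      refine ⟨s, ?_, ?_, ?_⟩
      · rcases h with h | ⟨v, hv, h⟩
        · cases h
        · cases h
          exact hv
      · rcases h' with h | ⟨v, hv, h⟩
        · cases h
        · cases h
          exact hv
      · rcases h'' with h | ⟨v, hv, h⟩
        · cases h
        · cases h
          exact hv
  rcases Y_case hA tri (dist _ _ y0 y1 e01) (dist _ _ y0 y2 e02) (dist _ _ y1 y2 e12) with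
    ⟨s, g0, g1, g2⟩ | ⟨v, w, hvw, g0, g1, g2⟩
  · refine ⟨Sum.inl s, ?_, ?_, ?_⟩
    · intro k hk
      rcases y0 k hk with rfl | ⟨v, rfl⟩
      · exact Or.inl rfl
      · exact Or.inr (Or.inr ⟨v, g0 v hk, rfl⟩)
    · intro k hk
      rcases y1 k hk with rfl | ⟨v, rfl⟩
      · exact Or.inl rfl
      · exact Or.inr (Or.inr ⟨v, g1 v hk, rfl⟩)
    · intro k hk
      rcases y2 k hk with rfl | ⟨v, rfl⟩
      · exact Or.inl rfl
      · exact Or.inr (Or.inr ⟨v, g2 v hk, rfl⟩)
  · by_cases hcn : ∃ x, A.Adj v x ∧ A.Adj w x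
    · obtain ⟨x, hvx, hwx⟩ := hcn
      have gen : ∀ S : Set (KT α), (∀ k ∈ S, k = KT.all ∨ ∃ v, k = KT.Y v) →
          (∀ x ∈ {v | KT.Y v ∈ S}, x = v ∨ x = w) → ∀ k ∈ S, Fit A k (Lab.u (Sum.inl x)) := by
        intro S hS hg k hk
        rcases hS k hk with rfl | ⟨y, rfl⟩
        · exact Or.inl rfl
        · refine Or.inr (Or.inr ⟨y, ?_, rfl⟩)
          rcases hg y hk with rfl | rfl
          · exact hvx.symm
          · exact hwx.symm
      exact ⟨Sum.inl x, gen S0 y0 g0, gen S1 y1 g1, gen S2 y2 g2⟩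
    · have hz : ¬ (s(v, w) : Sym2 α).IsDiag ∧ ¬ ∃ x, ∀ a ∈ (s(v, w) : Sym2 α), A.Adj a x := by
        refine ⟨?_, ?_⟩
        · simpa using hvw
        · rintro ⟨x, hx⟩
          exact hcn ⟨x, hx v (Sym2.mem_mk_left v w), hx w (Sym2.mem_mk_right v w)⟩
      have gen : ∀ S : Set (KT α), (∀ k ∈ S, k = KT.all ∨ ∃ v, k = KT.Y v) →
          (∀ x ∈ {v | KT.Y v ∈ S}, x = v ∨ x = w) →
          ∀ k ∈ S, Fit A k (Lab.u (Sum.inr ⟨s(v, w), hz⟩)) := by
        intro S hS hg k hk
        rcases hS k hk with rfl | ⟨y, rfl⟩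
        · exact Or.inl rfl
        · refine Or.inr ⟨y, ?_, rfl⟩
          rcases hg y hk with rfl | rfl
          · exact Sym2.mem_mk_left y w
          · exact Sym2.mem_mk_right v y
      exact ⟨Sum.inr ⟨s(v, w), hz⟩, gen S0 y0 g0, gen S1 y1 g1, gen S2 y2 g2⟩

theorem ok3_of_cfg {α : Type} {A : SimpleGraph α} {k : Fin 3 → KT α} (g : Cfg α)
    (hg : ∀ i, Mem A (lab g i) (k i)) : OK3 A (k 0) (k 1) (k 2) := by
  have hb : ∀ w (k : KT α), Mem A (Lab.b w) k → k = KT.all ∨ k = KT.Y w := by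
    intro w k hk
    cases k with
    | zero => cases hk
    | X s => rcases hk with hk | hk <;> cases hk
    | Y v =>
      rcases hk with hk | hk | ⟨v, _, hk⟩
      · cases hk
      · cases hk
        exact Or.inr rfl
      · cases hk
    | all => exact Or.inl rfl
  have he : ∀ (k : KT α), Mem A Lab.e k → k = KT.all := by
    intro k hk
    cases k with
    | zero => cases hk
    | X s => rcases hk with hk | hk <;> cases hk
    | Y v =>
      rcases hk with hk | hk | ⟨v, _, hk⟩
      · cases hk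
      · cases hk
      · cases hk
    | all => rfl
  have hu : ∀ s (k : KT α), Mem A (Lab.u s) k → k = KT.all ∨ Us A s k := by
    intro w k hk
    cases k with
    | zero => cases hk
    | X s =>
      rcases hk with hk | hk
      · cases hk
      · cases hk
        exact Or.inr (Or.inl rfl)
    | Y v =>
      rcases hk with hk | hk | ⟨v, hv, hk⟩
      · cases hk
      · cases hk
      · cases hk
        exact Or.inr (Or.inr ⟨_, hv.symm, rfl⟩)
    | all => exact Or.inl rfl
  unfold OK3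
  cases g with
  | ee i =>
    have h := hg i
    simp only [lab, if_true] at h
    have h' := he _ h
    fin_cases i
    · exact Or.inl h'
    · exact Or.inr (Or.inl h')
    · exact Or.inr (Or.inr (Or.inl h'))
  | bb i w =>
    have h : ∀ j, j ≠ i → k j = KT.all ∨ k j = KT.Y w := by
      intro j hj
      have h := hg j
      simp only [lab, if_neg hj] at h
      exact hb w _ h
    fin_cases i
    · rcases h 1 (by decide) with h1 | h1
      · exact Or.inr (Or.inl h1)
      rcases h 2 (by decide) with h2 | h2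
      · exact Or.inr (Or.inr (Or.inl h2))
      exact Or.inr (Or.inr (Or.inr (Or.inr (Or.inr (Or.inl ⟨w, h1, h2⟩)))))
    · rcases h 0 (by decide) with h1 | h1
      · exact Or.inl h1
      rcases h 2 (by decide) with h2 | h2
      · exact Or.inr (Or.inr (Or.inl h2))
      exact Or.inr (Or.inr (Or.inr (Or.inr (Or.inl ⟨w, h1, h2⟩))))
    · rcases h 0 (by decide) with h1 | h1
      · exact Or.inl h1
      rcases h 1 (by decide) with h2 | h2
      · exact Or.inr (Or.inl h2)
      exact Or.inr (Or.inr (Or.inr (Or.inl ⟨w, h1, h2⟩)))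
  | uu s =>
    rcases hu s _ (hg 0) with h0 | h0
    · exact Or.inl h0
    rcases hu s _ (hg 1) with h1 | h1
    · exact Or.inr (Or.inl h1)
    rcases hu s _ (hg 2) with h2 | h2
    · exact Or.inr (Or.inr (Or.inl h2))
    exact Or.inr (Or.inr (Or.inr (Or.inr (Or.inr (Or.inr ⟨s, h0, h1, h2⟩)))))

theorem classify {α : Type} {A : SimpleGraph α} (hA : C4free A) (F : Fin 3 → Set (KT α))
    (h : ∀ k : Fin 3 → KT α, (∀ i, k i ∈ F i) → ∃ g : Cfg α, ∀ i, Mem A (lab g i) (k i)) :
    ∃ g : Cfg (α ⊕ Mid A), ∀ i, ∀ k ∈ F i, Fit A k (lab g i) := by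
  have h3 : ∀ a ∈ F 0, ∀ b ∈ F 1, ∀ c ∈ F 2, OK3 A a b c := by
    intro a ha b hb c hc
    have hk : ∀ i, (![a, b, c] : Fin 3 → KT α) i ∈ F i := by
      intro i
      fin_cases i
      · exact ha
      · exact hb
      · exact hc
    obtain ⟨g, hg⟩ := h ![a, b, c] hk
    exact ok3_of_cfg g hg
  have fitall : ∀ (k : KT α) (w : α), (k = KT.all ∨ k = KT.Y w) →
      Fit A k (Lab.b (Sum.inl w)) := fun k w hk => hk
  rcases main3 hA h3 with g | g | g | ⟨w, g, g'⟩ | ⟨w, g, g'⟩ | ⟨w, g, g'⟩ | ⟨s, g0, g1, g2⟩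
  · refine ⟨Cfg.ee 0, fun i k hk => ?_⟩
    fin_cases i
    · exact g k hk
    · exact trivial
    · exact trivial
  · refine ⟨Cfg.ee 1, fun i k hk => ?_⟩
    fin_cases i
    · exact trivial
    · exact g k hk
    · exact trivial
  · refine ⟨Cfg.ee 2, fun i k hk => ?_⟩
    fin_cases i
    · exact trivial
    · exact trivial
    · exact g k hk
  · refine ⟨Cfg.bb 2 (Sum.inl w), fun i k hk => ?_⟩
    fin_cases i
    · exact g k hk
    · exact g' k hk
    · exact trivial
  · refine ⟨Cfg.bb 1 (Sum.inl w), fun i k hk => ?_⟩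
    fin_cases i
    · exact g k hk
    · exact trivial
    · exact g' k hk
  · refine ⟨Cfg.bb 0 (Sum.inl w), fun i k hk => ?_⟩
    fin_cases i
    · exact trivial
    · exact g k hk
    · exact g' k hk
  · refine ⟨Cfg.uu s, fun i k hk => ?_⟩
    fin_cases i
    · exact g0 k hk
    · exact g1 k hk
    · exact g2 k hk

end Pool.Agent.Helper18.C4
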