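import Pool.Agent.Helper18.C4.Labels

namespace Pool.Agent.Helper18.C4

/-- A system of three involutions with vertex views `V r` and edge views `E r i`. -/
structure Sys (X : Type) where
  T : Fin 3 → X → X
  TT : ∀ i x, T i (T i x) = x
  V : ℕ → X → X → Prop
  E : ℕ → Fin 3 → X → X → Prop
  Vrefl : ∀ r x, V r x x
  Vsymm : ∀ r x y, V r x y → V r y x
  Vtrans : ∀ r x y z, V r x y → V r y z → V r x z
  Erefl : ∀ r i x, E r i x x
  Esymm : ∀ r i x y, E r i x y → E r i y x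
  Etrans : ∀ r i x y z, E r i x y → E r i y z → E r i x z
  ET : ∀ r i x y, E r i x y → E r i (T i x) (T i y)
  glueE : ∀ r i x y, E r i x y → ∃ z, V (r + 1) z x ∧ V (r + 1) (T i z) (T i y)
  glueV : ∀ r (x : Fin 3 → X) x0, (∀ i, V r (x i) x0) → ∃ y, ∀ i, E r i y (x i)

/-- A labelling of the points by configurations, compatible along edges, depending only on the
view of radius `r`. -/
def Good {X : Type} (S : Sys X) {α : Type} (A : SimpleGraph α) (r : ℕ) (C : X → Cfg α) : Prop :=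
  (∀ x y, S.V r x y → C x = C y) ∧ ∀ x i, Cmp A (lab (C x) i) (lab (C (S.T i x)) i)

theorem step {X : Type} (S : Sys X) {α : Type} {A : SimpleGraph α} (hA : C4free A) {r : ℕ}
    {C : X → Cfg α} (hC : Good S A (r + 1) C) :
    ∃ C' : X → Cfg (α ⊕ Mid A), Good S (nxt A) r C' := by
  classical
  obtain ⟨hV, hE⟩ := hC
  choose κ hκ1 hκ2 using fun (s : Set (Lab α)) => closure_exists hA s
  let L : Fin 3 → X → Set (Lab α) := fun i x => {l | ∃ x', S.E r i x' x ∧ l = lab (C x') i}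
  have hL : ∀ i x y, S.E r i x y → L i x = L i y := by
    intro i x y hxy
    ext l
    constructor
    · rintro ⟨x', h1, h2⟩
      exact ⟨x', S.Etrans _ _ _ _ _ h1 hxy, h2⟩
    · rintro ⟨x', h1, h2⟩
      exact ⟨x', S.Etrans _ _ _ _ _ h1 (S.Esymm _ _ _ _ hxy), h2⟩
  have hLL : ∀ i x, ∀ l ∈ L i x, ∀ l' ∈ L i (S.T i x), Cmp A l l' := by
    rintro i x l ⟨x', h1, rfl⟩ l' ⟨x'', h2, rfl⟩
    have h3 : S.E r i (S.T i x'') x := by
      have := S.ET _ _ _ _ h2
      rwa [S.TT] at this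
    have h4 : S.E r i x' (S.T i x'') := S.Etrans _ _ _ _ _ h1 (S.Esymm _ _ _ _ h3)
    obtain ⟨z, hz1, hz2⟩ := S.glueE _ _ _ _ h4
    rw [S.TT] at hz2
    have := hE z i
    rwa [hV z x' hz1, hV _ x'' hz2] at this
  let F : X → Fin 3 → Set (KT α) := fun x i => {k | ∃ x', S.V r x' x ∧ k = κ (L i x')}
  have hF : ∀ x y, S.V r x y → F x = F y := by
    intro x y hxy
    funext i
    ext k
    constructor
    · rintro ⟨x', h1, h2⟩
      exact ⟨x', S.Vtrans _ _ _ _ h1 hxy, h2⟩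
    · rintro ⟨x', h1, h2⟩
      exact ⟨x', S.Vtrans _ _ _ _ h1 (S.Vsymm _ _ _ hxy), h2⟩
  have hcl : ∀ x, ∀ k : Fin 3 → KT α, (∀ i, k i ∈ F x i) →
      ∃ g : Cfg α, ∀ i, Mem A (lab g i) (k i) := by
    intro x k hk
    choose x' hx' hkx' using hk
    obtain ⟨y, hy⟩ := S.glueV r x' x hx'
    refine ⟨C y, fun i => ?_⟩
    rw [hkx' i, ← hL i y (x' i) (hy i)]
    exact hκ1 _ _ ⟨y, S.Erefl _ _ _, rfl⟩
  have hch : ∀ G : Fin 3 → Set (KT α), ∃ g : Cfg (α ⊕ Mid A),
      (∀ k : Fin 3 → KT α, (∀ i, k i ∈ G i) → ∃ g : Cfg α, ∀ i, Mem A (lab g i) (k i)) →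
      ∀ i, ∀ k ∈ G i, Fit A k (lab g i) := by
    intro G
    by_cases hG : ∀ k : Fin 3 → KT α, (∀ i, k i ∈ G i) → ∃ g : Cfg α, ∀ i, Mem A (lab g i) (k i)
    · obtain ⟨g, hg⟩ := classify hA G hG
      exact ⟨g, fun _ => hg⟩
    · exact ⟨Cfg.ee 0, fun h => absurd h hG⟩
  choose pick hpick using hch
  refine ⟨fun x => pick (F x), ?_, ?_⟩
  · intro x y hxy
    simp only [hF x y hxy]
  · intro x i
    have h1 : κ (L i x) ∈ F x i := ⟨x, S.Vrefl _ _, rfl⟩
    have h2 : κ (L i (S.T i x)) ∈ F (S.T i x) i := ⟨S.T i x, S.Vrefl _ _, rfl⟩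
    have h3 := hpick (F x) (hcl x) i _ h1
    have h4 := hpick (F (S.T i x)) (hcl (S.T i x)) i _ h2
    refine edge_ok ?_ h3 h4
    intro a ha b hb
    have ha' : ∀ s' ∈ L i (S.T i x), Cmp A a s' := fun s' hs' =>
      hκ2 (L i x) a ha s' (fun s hs => hLL i x s hs s' hs')
    have csymm : ∀ p q : Lab α, Cmp A p q → Cmp A q p := by
      intro p q h
      cases h with
      | ol l => exact Cmp.or _
      | or l => exact Cmp.ol _
      | bu w => exact Cmp.ub _
      | ub w => exact Cmp.bu _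
      | uu h => exact Cmp.uu h.symm
    exact csymm _ _ (hκ2 (L i (S.T i x)) b hb a (fun s hs => csymm _ _ (ha' s hs)))

/-- Iterating the elimination step. -/
theorem no_good {X : Type} (S : Sys X) {c : ℕ} (hc : 3 ≤ c)
    (h0 : ∀ (α : Type) (A : SimpleGraph α), A.Colorable c → ∀ C : X → Cfg α, ¬ Good S A 0 C) :
    ∀ (r : ℕ) (α : Type) (A : SimpleGraph α), C4free A → A.Colorable c →
      ∀ C : X → Cfg α, ¬ Good S A r C := by
  intro r
  induction r with
  | zero => exact fun α A _ hcol C => h0 α A hcol C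
  | succ r ih =>
    intro α A hA hcol C hC
    obtain ⟨C', hC'⟩ := step S hA hC
    exact ih _ _ (nxt_c4free hA) (nxt_colorable hc hcol) C' hC'

/-- No homomorphism of bounded radius. -/
theorem no_hom {X : Type} (S : Sys X) {c : ℕ} (hc : 3 ≤ c)
    (h0 : ∀ (α : Type) (A : SimpleGraph α), A.Colorable c → ∀ C : X → Cfg α, ¬ Good S A 0 C)
    (r : ℕ) (α : Type) (A : SimpleGraph α) (hA : C4free A) (hcol : A.Colorable c)
    (f : X → α) (hf : ∀ x y, S.V r x y → f x = f y) : ∃ x i, ¬ A.Adj (f x) (f (S.T i x)) := by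
  by_contra h
  push Not at h
  exact no_good S hc h0 r α A hA hcol (fun x => Cfg.uu (f x))
    ⟨fun x y hxy => by show Cfg.uu (f x) = Cfg.uu (f y); rw [hf x y hxy],
      fun x i => Cmp.uu (h x i)⟩

end Pool.Agent.Helper18.C4
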