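import Pool.Agent.Helper18.C4.Step

namespace Pool.Agent.Helper18.C4

/-- Moving the root of the tree along colour `i`, on words. -/
def st (i : Fin 3) : List (Fin 3) → List (Fin 3)
  | [] => []
  | [j] => if j = i then [j] else [i, j]
  | j :: k :: w => if j = i then (if k = i then j :: k :: w else k :: w) else i :: j :: k :: w

theorem st_st (i : Fin 3) (w : List (Fin 3)) : st i (st i w) = w := by
  rcases w with _ | ⟨j, _ | ⟨k, w⟩⟩
  · rfl
  · by_cases h : j = i
    · simp [st, h]
    · simp [st, h]
  · by_cases h : j = i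
    · subst h
      by_cases h' : k = j
      · simp [st, h']
      · rcases w with _ | ⟨l, w⟩
        · simp [st, h']
        · simp [st, h']
    · simp [st, h]

theorem st_eq_single {i : Fin 3} {w : List (Fin 3)} : st i w = [i] ↔ w = [i] := by
  constructor
  · intro h
    have := congrArg (st i) h
    rw [st_st] at this
    simpa [st] using this
  · rintro rfl
    simp [st]

/-- Nonzero elements of `ZMod p`. -/
abbrev NZ (p : ℕ) : Type := {b : ZMod p // b ≠ 0}

/-- The opposite of a nonzero element. -/
def ngz {p : ℕ} (b : NZ p) : NZ p := ⟨-b.1, neg_ne_zero.mpr b.2⟩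

/-- Moving the root along colour `i`, on labellings. -/
def rec1 {p : ℕ} (i : Fin 3) (a : List (Fin 3) → NZ p) : List (Fin 3) → NZ p :=
  fun w => if w = [i] then ngz (a [i]) else a (st i w)

theorem rec1_rec1 {p : ℕ} (i : Fin 3) (a : List (Fin 3) → NZ p) : rec1 i (rec1 i a) = a := by
  funext w
  unfold rec1
  by_cases h : w = [i]
  · subst h
    simp [ngz]
  · have h' : ¬ st i w = [i] := fun h' => h (st_eq_single.1 h')
    simp [h, h', st_st]

/-- Vectors indexed by the words of length at most `L`. -/
def Vec (p L : ℕ) : Type := {l : List (Fin 3) // l.length ≤ L} → ZMod p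

/-- The nilpotent map of colour `i`. -/
def nil {p L : ℕ} (i : Fin 3) (f : Vec p L) : Vec p L := fun w => match w with
  | ⟨[], _⟩ => 0
  | ⟨j :: w, h⟩ => if j = i ∧ w.head? ≠ some i then
      f ⟨w, by rw [List.length_cons] at h; omega⟩ else 0

theorem nil_nil {p L : ℕ} (i : Fin 3) (f : Vec p L) (w) : nil i (nil i f) w = 0 := by
  rcases w with ⟨_ | ⟨j, _ | ⟨k, w⟩⟩, h⟩
  · rfl
  · simp [nil]
  · simp only [nil]
    split_ifs with h1 h2
    · obtain ⟨rfl, h1⟩ := h1
      obtain ⟨rfl, h2⟩ := h2
      simp at h1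
    · rfl
    · rfl

theorem nil_add {p L : ℕ} (i : Fin 3) (f g : Vec p L) (b : ZMod p) (w) :
    nil i (fun v => f v + b * g v) w = nil i f w + b * nil i g w := by
  rcases w with ⟨_ | ⟨j, w⟩, h⟩
  · simp [nil]
  · simp only [nil]
    split_ifs
    · rfl
    · simp

/-- The map `1 + b N_i`. -/
def tr {p L : ℕ} (i : Fin 3) (b : ZMod p) (f : Vec p L) : Vec p L := fun w => f w + b * nil i f w

theorem tr_tr {p L : ℕ} (i : Fin 3) (b b' : ZMod p) (f : Vec p L) :
    tr i b (tr i b' f) = tr i (b + b') f := by
  funext w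
  have h := nil_add i f (nil i f) b' w
  rw [nil_nil, mul_zero, add_zero] at h
  have h' : nil i (tr i b' f) w = nil i f w := h
  show tr i b' f w + b * nil i (tr i b' f) w = f w + (b + b') * nil i f w
  rw [h']
  show f w + b' * nil i f w + b * nil i f w = f w + (b + b') * nil i f w
  ring

theorem tr_zero {p L : ℕ} (i : Fin 3) (f : Vec p L) : tr i 0 f = f := by
  funext w
  simp [tr]

/-- The finite groups. -/
def Q (p L : ℕ) : Type := Equiv.Perm (Vec p L)

instance (p L : ℕ) : Group (Q p L) := inferInstanceAs (Group (Equiv.Perm (Vec p L)))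

instance (p L : ℕ) : TopologicalSpace (Q p L) := ⊥

instance (p L : ℕ) : DiscreteTopology (Q p L) := ⟨rfl⟩

instance (p L : ℕ) [NeZero p] : Finite (Q p L) := by
  haveI : Finite {l : List (Fin 3) // l.length ≤ L} := (List.finite_length_le (Fin 3) L).to_subtype
  haveI : Finite (Vec p L) := inferInstanceAs (Finite ({l : List (Fin 3) // l.length ≤ L} → ZMod p))
  exact inferInstanceAs (Finite (Equiv.Perm (Vec p L)))

/-- The one-parameter groups. -/
def rho {p L : ℕ} (i : Fin 3) (b : ZMod p) : Q p L where
  toFun := tr i b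
  invFun := tr i (-b)
  left_inv f := by rw [tr_tr, neg_add_cancel, tr_zero]
  right_inv f := by rw [tr_tr, add_neg_cancel, tr_zero]

theorem rho_mul {p L : ℕ} (i : Fin 3) (b b' : ZMod p) :
    (rho i b : Q p L) * rho i b' = rho i (b + b') :=
  Equiv.ext (fun f => tr_tr i b b' f)

theorem rho_zero {p L : ℕ} (i : Fin 3) : (rho i 0 : Q p L) = 1 :=
  Equiv.ext (fun f => tr_zero i f)

/-- The space. -/
abbrev XX (p : ℕ) : Type := (∀ L, Q p L) × (List (Fin 3) → NZ p)

/-- The involutions. -/
def TT {p : ℕ} (i : Fin 3) (x : XX p) : XX p :=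
  (fun L => x.1 L * rho i (x.2 [i]).1, rec1 i x.2)

theorem TT_TT {p : ℕ} (i : Fin 3) (x : XX p) : TT i (TT i x) = x := by
  refine Prod.ext ?_ (rec1_rec1 i x.2)
  funext L
  show x.1 L * rho i (x.2 [i]).1 * rho i (rec1 i x.2 [i]).1 = x.1 L
  have : (rec1 i x.2 [i]).1 = - (x.2 [i]).1 := by simp [rec1, ngz]
  rw [this, mul_assoc, rho_mul, add_neg_cancel, rho_zero, mul_one]

theorem TT_cont {p : ℕ} (i : Fin 3) : Continuous (TT i : XX p → XX p) := by
  refine Continuous.prodMk ?_ ?_
  · refine continuous_pi fun L => ?_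
    have h1 : Continuous (fun x : XX p => (x.1 L, x.2 [i])) := by fun_prop
    have h2 : Continuous (fun y : Q p L × NZ p => y.1 * rho i y.2.1) :=
      continuous_of_discreteTopology
    exact h2.comp h1
  · refine continuous_pi fun w => ?_
    unfold rec1
    by_cases h : w = [i]
    · simp only [h, if_true]
      have h2 : Continuous (fun y : NZ p => ngz y) := continuous_of_discreteTopology
      exact h2.comp (by fun_prop)
    · simp only [h, if_false]
      fun_prop

/-- Agreement of the group coordinates up to level `K`. -/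
def AgG {p : ℕ} (K : ℕ) (x y : XX p) : Prop := ∀ L ≤ K, x.1 L = y.1 L

theorem st_len (i : Fin 3) (r : ℕ) (w : List (Fin 3))
    (h : w.length ≤ r ∨ (w.head? = some i ∧ w.length ≤ r + 1)) :
    (st i w).length ≤ r ∨ ((st i w).head? = some i ∧ (st i w).length ≤ r + 1) := by
  rcases w with _ | ⟨j, _ | ⟨k, w⟩⟩
  · left
    simp [st]
  · by_cases hj : j = i
    · simpa [st, hj] using h
    · simp [hj] at h
      simp [st, hj]
      omega
  · by_cases hj : j = i
    · subst hj
      by_cases hk : k = j
      · simpa [st, hk] using h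
      · simp at h
        simp [st, hk]
        omega
    · simp [hj] at h
      simp [st, hj]
      omega

/-- The system. -/
def sys (p K : ℕ) : Sys (XX p) where
  T := TT
  TT := TT_TT
  V r x y := AgG K x y ∧ ∀ w, w.length ≤ r → x.2 w = y.2 w
  E r i x y := AgG K x y ∧
    ∀ w, (w.length ≤ r ∨ (w.head? = some i ∧ w.length ≤ r + 1)) → x.2 w = y.2 w
  Vrefl r x := ⟨fun _ _ => rfl, fun _ _ => rfl⟩
  Vsymm r x y h := ⟨fun L hL => (h.1 L hL).symm, fun w hw => (h.2 w hw).symm⟩
  Vtrans r x y z h h' := ⟨fun L hL => (h.1 L hL).trans (h'.1 L hL),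
    fun w hw => (h.2 w hw).trans (h'.2 w hw)⟩
  Erefl r i x := ⟨fun _ _ => rfl, fun _ _ => rfl⟩
  Esymm r i x y h := ⟨fun L hL => (h.1 L hL).symm, fun w hw => (h.2 w hw).symm⟩
  Etrans r i x y z h h' := ⟨fun L hL => (h.1 L hL).trans (h'.1 L hL),
    fun w hw => (h.2 w hw).trans (h'.2 w hw)⟩
  ET r i x y h := by
    have hi : x.2 [i] = y.2 [i] := h.2 [i] (Or.inr ⟨rfl, by simp⟩)
    refine ⟨fun L hL => ?_, fun w hw => ?_⟩
    · show x.1 L * rho i (x.2 [i]).1 = y.1 L * rho i (y.2 [i]).1
      rw [h.1 L hL, hi]
    · show rec1 i x.2 w = rec1 i y.2 w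
      unfold rec1
      rw [hi, h.2 _ (st_len i r w hw)]
  glueE r i x y h := by
    refine ⟨(x.1, fun w => if w.head? = some i then y.2 w else x.2 w), ⟨fun _ _ => rfl, ?_⟩, ?_, ?_⟩
    · intro w hw
      show (if w.head? = some i then y.2 w else x.2 w) = x.2 w
      split_ifs with hh
      · exact (h.2 w (Or.inr ⟨hh, hw⟩)).symm
      · rfl
    · intro L hL
      have hi : (fun w : List (Fin 3) => if w.head? = some i then y.2 w else x.2 w) [i] =
          y.2 [i] := by simp
      show x.1 L * rho i ((fun w : List (Fin 3) => if w.head? = some i then y.2 w else x.2 w) [i]).1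
        = y.1 L * rho i (y.2 [i]).1
      rw [hi, h.1 L hL]
    · intro w hw
      show rec1 i (fun w : List (Fin 3) => if w.head? = some i then y.2 w else x.2 w) w =
        rec1 i y.2 w
      unfold rec1
      by_cases hwi : w = [i]
      · simp [hwi]
      · simp only [hwi, if_false]
        split_ifs with hh
        · rfl
        · apply h.2
          left
          rcases w with _ | ⟨j, _ | ⟨k, w⟩⟩
          · simp [st]
          · exfalso
            by_cases hj : j = i
            · exact hwi (by rw [hj])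
            · simp [st, hj] at hh
          · by_cases hj : j = i
            · by_cases hk : k = i
              · simp [st, hj, hk] at hh
              · simp [st, hj, hk]
                simp at hw
                omega
            · simp [st, hj] at hh
  glueV r x x0 h := by
    refine ⟨(x0.1, fun w => match w.head? with
      | none => x0.2 w
      | some j => (x j).2 w), fun i => ⟨fun L hL => ((h i).1 L hL).symm, fun w hw => ?_⟩⟩
    rcases w with _ | ⟨j, w⟩
    · exact ((h i).2 [] (Nat.zero_le _)).symm
    · show (x j).2 (j :: w) = (x i).2 (j :: w)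
      rcases hw with hw | ⟨hw, _⟩
      · rw [(h i).2 _ hw, (h j).2 _ hw]
      · have : j = i := by simpa using hw
        rw [this]

end Pool.Agent.Helper18.C4
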